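import Pool.Agent.H16.AltU.Main

/-!
# The variety of all alternative algebras over a field of characteristic zero is decomposable

It is the join of the variety of associative algebras and of the variety of the alternative
algebras with the identity `u ^ 2 = 0`, `u = [[x, [x, y] ^ 2] ^ 2, z] ^ 2`; both are proper.
-/

set_option autoImplicit false

namespace Pool.Agent.Results.MP_3720ba_al.ProperJoin

universe u

/-- The free nonassociative `F`-algebra on the letters `x_0, x_1, x_2, ...`; its elements are the
nonassociative polynomials without constant term. -/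
abbrev FreeAlg (F : Type u) [Field F] : Type u := FreeNonUnitalNonAssocAlgebra F ℕ

/-- An alternative `F`-algebra (in any universe `u`): an `F`-vector space with a bilinear
product, not assumed associative, commutative or unital, with `(xx)y = x(xy)` and
`(yx)x = y(xx)`. -/
structure AltAlg (F : Type u) [Field F] where
  /-- the underlying set -/
  carrier : Type u
  [ring : NonUnitalNonAssocRing carrier]
  [module : Module F carrier]
  [tower : IsScalarTower F carrier carrier]
  [comm : SMulCommClass F carrier carrier]
  left_alt : ∀ x y : carrier, (x * x) * y = x * (x * y)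
  right_alt : ∀ x y : carrier, (y * x) * x = y * (x * x)

attribute [instance] AltAlg.ring AltAlg.module AltAlg.tower AltAlg.comm

section

variable {F : Type u} [Field F]

/-- The polynomial `f` is an identity of `A`: every substitution of elements of `A` for the
letters sends `f` to `0`. -/
def Satisfies (A : AltAlg F) (f : FreeAlg F) : Prop :=
  ∀ φ : ℕ → A.carrier, FreeNonUnitalNonAssocAlgebra.lift F φ f = 0

/-- The class of all alternative algebras in which every element of `S` is an identity. -/
def variety (S : Set (FreeAlg F)) : Set (AltAlg F) := {A | ∀ s ∈ S, Satisfies A s}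

/-- `V` is a subvariety of the variety of alternative algebras: it is defined by a set of
additional polynomial identities. -/
def IsSubvariety (V : Set (AltAlg F)) : Prop := ∃ S : Set (FreeAlg F), V = variety S

/-- `V` is the join of `V₁` and `V₂`: the smallest subvariety which contains both. -/
def IsJoin (V V₁ V₂ : Set (AltAlg F)) : Prop :=
  IsSubvariety V ∧ V₁ ⊆ V ∧ V₂ ⊆ V ∧ ∀ W, IsSubvariety W → V₁ ⊆ W → V₂ ⊆ W → V ⊆ W

/-- The commutator `[a, b]`. -/
def comm {A : Type u} [NonUnitalNonAssocRing A] (a b : A) : A := a * b - b * a

/-- The square `a ^ 2`. -/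
def sq {A : Type u} [NonUnitalNonAssocRing A] (a : A) : A := a * a

end

section

variable (F : Type u) [Field F]

/-- The letter `x_i` of the free algebra. -/
noncomputable def letter (i : ℕ) : FreeAlg F := FreeNonUnitalNonAssocAlgebra.of F i

/-- The associator `(x_0 x_1) x_2 - x_0 (x_1 x_2)`. -/
noncomputable def assocPoly : FreeAlg F :=
  (letter F 0 * letter F 1) * letter F 2 - letter F 0 * (letter F 1 * letter F 2)

/-- The polynomial `u = [[x_0, [x_0, x_1] ^ 2] ^ 2, x_2] ^ 2`. -/
noncomputable def uPoly : FreeAlg F :=
  sq (comm (sq (comm (letter F 0) (sq (comm (letter F 0) (letter F 1))))) (letter F 2))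

end

/-- For every field `F` of characteristic `0` (in every universe) the variety of all alternative
`F`-algebras is the join of its proper subvarieties given by associativity and by `u ^ 2 = 0`. -/
theorem result (F : Type u) [Field F] [CharZero F] :
    variety {assocPoly F} ≠ Set.univ ∧ variety {sq (uPoly F)} ≠ Set.univ ∧
      IsJoin Set.univ (variety {assocPoly F}) (variety {sq (uPoly F)}) := by
  have hA : assocPoly F = Pool.Agent.H16.AltU.idA F := rfl
  have hU : sq (uPoly F) = Pool.Agent.H16.AltU.idU F := rfl
  rw [hA, hU]
  refine ⟨?_, ?_, ⟨⟨∅, ?_⟩, Set.subset_univ _, Set.subset_univ _, ?_⟩⟩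
  · intro h
    let B : AltAlg F :=
      { carrier := Pool.Agent.H16.AltU.Ex7 F
        left_alt := fun x y => (Pool.Agent.H16.AltU.ex7_alt F x y).1
        right_alt := fun x y => (Pool.Agent.H16.AltU.ex7_alt F x y).2 }
    have hB : B ∈ variety {Pool.Agent.H16.AltU.idA F} := by rw [h]; exact Set.mem_univ B
    obtain ⟨φ, hφ⟩ := Pool.Agent.H16.AltU.ex7_assoc F
    exact hφ (hB _ rfl φ)
  · intro h
    let B : AltAlg F :=
      { carrier := Matrix (Fin 3) (Fin 3) F
        left_alt := fun x y => mul_assoc x x y
        right_alt := fun x y => mul_assoc y x x }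
    have hB : B ∈ variety {Pool.Agent.H16.AltU.idU F} := by rw [h]; exact Set.mem_univ B
    obtain ⟨φ, hφ⟩ := Pool.Agent.H16.AltU.matrix_ex F
    exact hφ (hB _ rfl φ)
  · ext A
    simp [variety]
  · rintro W ⟨S, rfl⟩ h1 h2 A _ s hs φ
    apply Pool.Agent.H16.AltU.key F s _ _
      (Pool.Agent.H16.AltU.isAlt_of F (fun x y => ⟨A.left_alt x y, A.right_alt x y⟩)) φ
    · let B : AltAlg F :=
        { carrier := Pool.Agent.H68.FR F
          left_alt := fun x y => mul_assoc x x y
          right_alt := fun x y => mul_assoc y x x }
      have hB : B ∈ variety {Pool.Agent.H16.AltU.idA F} := by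
        intro t ht ψ
        rw [Set.mem_singleton_iff] at ht
        rw [ht]
        refine (Pool.Agent.H16.AltU.lift_idA F (A := Pool.Agent.H68.FR F) ψ).trans ?_
        rw [associator, mul_assoc, sub_self]
      exact h1 hB s hs (Pool.Agent.H68.letter F)
    · let B : AltAlg F :=
        { carrier := Pool.Agent.H16.AltU.QQ F
          left_alt := fun x y => (Pool.Agent.H16.AltU.QQ_alt F x y).1
          right_alt := fun x y => (Pool.Agent.H16.AltU.QQ_alt F x y).2 }
      have hB : B ∈ variety {Pool.Agent.H16.AltU.idU F} := by
        intro t ht ψ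
        rw [Set.mem_singleton_iff] at ht
        rw [ht]
        exact Pool.Agent.H16.AltU.QQ_idU F ψ
      have h3 := h2 hB s hs (fun i => Pool.Agent.H16.AltU.homQ F (FreeNonUnitalNonAssocAlgebra.of F i))
      have h4 := Pool.Agent.H16.AltU.lift_lift F (Pool.Agent.H16.AltU.homQ F)
        (FreeNonUnitalNonAssocAlgebra.of F) s
      have h5 : Pool.Agent.H16.AltU.homQ F
          (FreeNonUnitalNonAssocAlgebra.lift F (FreeNonUnitalNonAssocAlgebra.of F) s) = 0 :=
        h4.trans h3
      rw [Pool.Agent.H16.AltU.lift_of] at h5
      have h6 : Pool.Agent.H16.AltU.mkQ F s = Pool.Agent.H16.AltU.mkQ F 0 := h5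
      rw [Pool.Agent.H16.AltU.mkQ_eq, sub_zero] at h6
      exact h6

end Pool.Agent.Results.MP_3720ba_al.ProperJoin
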